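import Mathlib
import Pool.Agent.N290.RK.Stm3
import Pool.Agent.N290.RJ.Clo

/-!
# Project RK (helper290): GLC, uniform closure with uniform bounds (helper359)
-/

set_option autoImplicit false

open Complex MeasureTheory Set Filter Topology
open scoped ENNReal

namespace Pool.Agent.N359.RK

open Pool.Agent.N290.RJ Pool.Agent.N290.RK
open Pool.Agent.N290.R5 (BH Chr gelf)
open Pool.Agent.N342.RJ (bh_add bh_mul bh_const bh_sum chr_sum bh_lim)

variable {d : ℕ}

/-- the modulus of the rescaled functions -/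
theorem resc {s : E d → ℂ} (hs : DifferentiableOn ℂ s (B d)) {ω : ℝ → ℝ} (hω : SDM ω)
    (h : ∀ z ∈ B d, (1 - nm z) * ‖fderiv ℂ s z z‖ ≤ ω (1 - nm z)) (c : ℂ) {z : E d} (hz : z ∈ B d) :
    (1 - nm z) * ‖fderiv ℂ (fun z => (3 : ℂ)⁻¹ * (s z + -c)) z z‖ ≤ ω (1 - nm z) := by
  have hd : DifferentiableAt ℂ s z := hs.differentiableAt (B_open.mem_nhds hz)
  have h1 : fderiv ℂ (fun z => (3 : ℂ)⁻¹ * (s z + -c)) z = (3 : ℂ)⁻¹ • fderiv ℂ s z := by
    rw [fderiv_const_mul (hd.add_const _), fderiv_add_const]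
  have h2 : ‖fderiv ℂ (fun z => (3 : ℂ)⁻¹ * (s z + -c)) z z‖ = 3⁻¹ * ‖fderiv ℂ s z z‖ := by
    rw [h1, smul_apply, smul_eq_mul, norm_mul, norm_inv]
    norm_num
  rw [h2]
  have h3 := h z hz
  have h4 := hω.2.1 (1 - nm z)
  have h5 : (1 - nm z) * (3⁻¹ * ‖fderiv ℂ s z z‖) = 3⁻¹ * ((1 - nm z) * ‖fderiv ℂ s z z‖) := by
    ring
  rw [h5]
  linarith

/-- the glued functions solve the equation -/
theorem glued (h : GlR d) {M L : ℕ} {ε A : ℝ} {W : ℝ → ℝ → ℝ} (hε : 0 < ε)
    (hW : ∀ η : ℝ, 0 < η → SDM (W η)) {f : ℕ → Fin M → E d → ℂ} {G κ : ℕ → Fin L → E d → ℂ}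
    (hA : ∀ k, Arb ε A (f k) (G k) (κ k))
    (hap : ∀ k j, ∀ η : ℝ, 0 < η → ∃ s : E d → ℂ, DifferentiableOn ℂ s (B d) ∧
      (∀ z ∈ B d, (1 - nm z) * ‖fderiv ℂ s z z‖ ≤ W η (1 - nm z)) ∧
      ∀ z ∈ B d, ‖f k j z - s z‖ ≤ η) :
    ∃ g : Fin M ⊕ Fin L → E d × ℂ → ℂ, (∀ i, BH (BB d) (g i)) ∧ ∀ q ∈ BB d,
      ∑ i, Sum.elim (fun j => glue fun k => f k j) (fun l => glue fun k => G k l) i q * g i q = 1 := by
  have hne : (BB d).Nonempty := ⟨(0, 0), by
    have := mem_BB (d := d) zero_mem_B 0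
    simpa using this⟩
  have hfb : ∀ j, BH (BB d) (glue fun k => f k j) :=
    fun j => glue_bh (C := 1) (fun k => (hA k).f1 j) fun k z hz => (hA k).f2 j z hz
  have hGb : ∀ l, BH (BB d) (glue fun k => G k l) :=
    fun l => glue_bh (C := 1) (fun k => (hA k).g1 l) fun k z hz => (hA k).g2 l z hz
  have hφ : ∀ i : Fin M ⊕ Fin L, BH (BB d)
      (Sum.elim (fun j => glue fun k => f k j) (fun l => glue fun k => G k l) i) := by
    rintro (j | l)
    · exact hfb j
    · exact hGb l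
  by_contra hno
  obtain ⟨χ, hχ, hχ0⟩ := gelf BB_open hne hφ hno
  have hχf : ∀ j, χ (glue fun k => f k j) = 0 := fun j => hχ0 (Sum.inl j)
  have hχG : ∀ l, χ (glue fun k => G k l) = 0 := fun l => hχ0 (Sum.inr l)
  obtain ⟨η, hη⟩ : ∃ η : ℝ, η = min (ε / 4) 1 := ⟨_, rfl⟩
  have hη0 : 0 < η := by
    rw [hη]
    exact lt_min (by linarith) one_pos
  have hη1 : η ≤ 1 := by
    rw [hη]
    exact min_le_right _ _
  have hη4 : η ≤ ε / 4 := by
    rw [hη]
    exact min_le_left _ _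
  choose s hs1 hs2 hs3 using fun k j => hap k j η hη0
  have hsn : ∀ k j, ∀ z ∈ B d, ‖s k j z‖ ≤ 2 := by
    intro k j z hz
    have h2 := hs3 k j z hz
    have h3 := (hA k).f2 j z hz
    have h4 := norm_sub_le (f k j z) (f k j z - s k j z)
    rw [sub_sub_cancel] at h4
    linarith
  have hSb : ∀ j, BH (BB d) (glue fun k => s k j) :=
    fun j => glue_bh (C := 2) (fun k => hs1 k j) fun k z hz => hsn k j z hz
  -- the values of the character
  have hc : ∀ j, ‖χ (glue fun k => s k j)‖ ≤ η := by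
    intro j
    have e1 : χ (fun q => glue (fun k => s k j) q + (-1) * glue (fun k => f k j) q) =
        χ (glue fun k => s k j) := by
      rw [hχ.add _ _ (hSb j) (bh_mul (bh_const _) (hfb j)),
        hχ.mul (fun _ => -1) (glue fun k => f k j) (bh_const _) (hfb j), hχf j, mul_zero, add_zero]
    rw [← e1]
    refine hχ.le _ _ (bh_add (hSb j) (bh_mul (bh_const _) (hfb j))) hη0.le fun q hq => ?_
    have e2 : glue (fun k => s k j) q + (-1) * glue (fun k => f k j) q =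
        -(glue (fun k => f k j) q - glue (fun k => s k j) q) := by ring
    rw [e2, norm_neg]
    exact hs3 _ j q.1 hq.1
  obtain ⟨c, hcdef⟩ : ∃ c : Fin M → ℂ, c = fun j => χ (glue fun k => s k j) := ⟨_, rfl⟩
  have hcn : ∀ j, ‖c j‖ ≤ η := fun j => by
    rw [hcdef]
    exact hc j
  -- the local solutions
  obtain ⟨C₁, hC₁⟩ := h M L (ε / 6) A (W η) (by linarith) (hW η hη0)
  have hsmall : ∀ k, ∀ z ∈ B d, (∀ j, ‖(3 : ℂ)⁻¹ * (s k j z + -c j)‖ < ε / 6) →
      ∀ j, ‖f k j z‖ < ε := by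
    intro k z hz hj j
    have h1 := hj j
    rw [norm_mul, norm_inv] at h1
    have h2 : ‖s k j z + -c j‖ < ε / 2 := by
      have e3 : ‖(3 : ℂ)‖ = 3 := by norm_num
      rw [e3] at h1
      linarith
    have e : f k j z = (s k j z + -c j) + ((f k j z - s k j z) + c j) := by ring
    have h3 := norm_add_le (s k j z + -c j) ((f k j z - s k j z) + c j)
    rw [← e] at h3
    have h4 := norm_add_le (f k j z - s k j z) (c j)
    have h5 := hs3 k j z hz
    have h6 := hcn j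
    linarith
  have hsol : ∀ k, Sol C₁ (fun j z => (3 : ℂ)⁻¹ * (s k j z + -c j)) (G k) := by
    intro k
    refine hC₁ _ (G k) (κ k) ⟨fun j => ?_, fun j z hz => ?_, (hA k).g1, (hA k).g2, fun l => ?_,
      fun l z hz hj => (hA k).k2 l z hz (hsmall k z hz hj),
      fun z hz hj => (hA k).k3 z hz (hsmall k z hz hj)⟩ fun j z hz => ?_
    · exact ((hs1 k j).add_const _).const_mul _
    · rw [norm_mul, norm_inv]
      have e3 : ‖(3 : ℂ)‖ = 3 := by norm_num
      rw [e3]
      have h1 := norm_add_le (s k j z) (-c j)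
      rw [norm_neg] at h1
      have h2 := hsn k j z hz
      have h3 := hcn j
      linarith
    · exact ((hA k).k1 l).mono fun z hz => ⟨hz.1, hsmall k z hz.1 hz.2⟩
    · exact resc (hs1 k j) (hW η hη0) (hs2 k j) (c j) hz
  choose g h' hg1 hh1 hgh using hsol
  have hΓb : ∀ j, BH (BB d) (glue fun k => g k j) :=
    fun j => glue_bh (C := C₁) (fun k => hg1 k j) fun k z hz => (hgh k z hz).1 j
  have hHb : ∀ l, BH (BB d) (glue fun k => h' k l) :=
    fun l => glue_bh (C := C₁) (fun k => hh1 k l) fun k z hz => (hgh k z hz).2.1 l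
  -- apply the character
  obtain ⟨a, ha⟩ : ∃ a : Fin M ⊕ Fin L → E d × ℂ → ℂ, a = Sum.elim
      (fun j q => glue (fun k => s k j) q + -c j) (fun l => glue fun k => G k l) := ⟨_, rfl⟩
  obtain ⟨b, hb⟩ : ∃ b : Fin M ⊕ Fin L → E d × ℂ → ℂ, b = Sum.elim
      (fun j q => (3 : ℂ)⁻¹ * glue (fun k => g k j) q) (fun l => glue fun k => h' k l) := ⟨_, rfl⟩
  have hab : ∀ i, BH (BB d) (a i) := by
    rw [ha]
    rintro (j | l)
    · exact bh_add (hSb j) (bh_const _)
    · exact hGb l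
  have hbb : ∀ i, BH (BB d) (b i) := by
    rw [hb]
    rintro (j | l)
    · exact bh_mul (bh_const _) (hΓb j)
    · exact hHb l
  have ha0 : ∀ i, χ (a i) = 0 := by
    rw [ha]
    rintro (j | l)
    · show χ (fun q => glue (fun k => s k j) q + -c j) = 0
      rw [hχ.add _ _ (hSb j) (bh_const _), hχ.const, hcdef]
      ring
    · exact hχG l
  have hone : ∀ q ∈ BB d, ∑ i, a i q * b i q = 1 := by
    intro q hq
    rw [← (hgh (idx q.2) q.1 hq.1).2.2, Fintype.sum_sum_type, ha, hb]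
    congr 1
    refine Finset.sum_congr rfl fun j _ => ?_
    show (glue (fun k => s k j) q + -c j) * ((3 : ℂ)⁻¹ * glue (fun k => g k j) q) = _
    unfold glue
    ring
  have h1 := chr_sum hχ Finset.univ (fun i => bh_mul (hab i) (hbb i))
  have h2 := hχ.congr _ (fun _ => 1) (bh_sum Finset.univ (fun i => bh_mul (hab i) (hbb i)))
    (bh_const 1) (fun q hq => hone q hq)
  rw [h1, hχ.const, Finset.sum_eq_zero] at h2
  · exact zero_ne_one h2
  · intro i _
    rw [hχ.mul _ _ (hab i) (hbb i), ha0 i, zero_mul]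

/-- **GLC** -/
theorem GlC_of (d : ℕ) (h : GlR d) : GlC d := by
  intro M L ε A W hε hW
  by_contra hno
  push Not at hno
  choose f G κ hA hap hns using fun k : ℕ => hno (k : ℝ)
  obtain ⟨g, hg1, hg2⟩ := glued h hε hW hA hap
  choose C hC using fun i => (hg1 i).2
  obtain ⟨k, hk⟩ := exists_nat_ge (∑ i, |C i|)
  have hmap : MapsTo (fun z : E d => (z, (3 * k : ℂ))) (B d) (BB d) := fun z hz => mem_BB hz k
  have hbd : ∀ i, ∀ z ∈ B d, ‖g i (z, (3 * k : ℂ))‖ ≤ k := by
    intro i z hz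
    have h2 := Finset.single_le_sum (f := fun i => |C i|) (fun i _ => abs_nonneg _)
      (Finset.mem_univ i)
    exact (hC i _ (hmap hz)).trans ((le_abs_self _).trans (h2.trans hk))
  have hdf : ∀ i, DifferentiableOn ℂ (fun z : E d => g i (z, (3 * k : ℂ))) (B d) :=
    fun i => (hg1 i).1.comp (by fun_prop) hmap
  refine hns k ⟨fun j z => g (Sum.inl j) (z, (3 * k : ℂ)), fun l z => g (Sum.inr l) (z, (3 * k : ℂ)),
    fun j => hdf _, fun l => hdf _, fun z hz => ⟨fun j => hbd _ z hz, fun l => hbd _ z hz, ?_⟩⟩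
  rw [← hg2 _ (hmap hz), Fintype.sum_sum_type]
  have hi : idx (3 * k : ℂ) = k := idx_eq (by simp)
  congr 1
  · refine Finset.sum_congr rfl fun j _ => ?_
    show _ = glue (fun k => f k j) (z, (3 * k : ℂ)) * _
    unfold glue
    rw [hi]
  · refine Finset.sum_congr rfl fun l _ => ?_
    show _ = glue (fun k => G k l) (z, (3 * k : ℂ)) * _
    unfold glue
    rw [hi]

end Pool.Agent.N359.RK
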